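import Pool.Agent.Y859.SF.Stm

/-!
# Project SF: the argument of Erdos and Selfridge
-/

set_option autoImplicit false

open Finset

namespace Pool.Agent.Y585.SF

open Pool.Agent.Y859.SF

/-- the squarefree part -/
theorem ex_sqf (j : ℕ) : ∃ a x : ℕ, x ^ 2 * a = j ∧ Squarefree a := Nat.sq_mul_squarefree j

/-- the squarefree part -/
noncomputable def sf (j : ℕ) : ℕ := (ex_sqf j).choose

/-- the square part -/
noncomputable def sx (j : ℕ) : ℕ := (ex_sqf j).choose_spec.choose

theorem sf_spec (j : ℕ) : sx j ^ 2 * sf j = j ∧ Squarefree (sf j) :=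
  (ex_sqf j).choose_spec.choose_spec

theorem odd_iff {j : ℕ} (hj : j ≠ 0) (p : ℕ) (hp : p.Prime) :
    Odd (j.factorization p) ↔ p ∣ sf j := by
  obtain ⟨h1, h2⟩ := sf_spec j
  have hx : sx j ≠ 0 := by rintro h; rw [h] at h1; simp at h1; exact hj h1.symm
  have hs : sf j ≠ 0 := h2.ne_zero
  have e : j.factorization p = 2 * (sx j).factorization p + (sf j).factorization p := by
    conv_lhs => rw [← h1]
    rw [Nat.factorization_mul (pow_ne_zero 2 hx) hs, Nat.factorization_pow]
    simp
  have h3 : (sf j).factorization p ≤ 1 := h2.natFactorization_le_one p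
  constructor
  · intro ho
    by_contra hd
    rw [Nat.factorization_eq_zero_of_not_dvd hd] at e
    rw [e] at ho
    exact (Nat.not_odd_iff_even.2 ⟨(sx j).factorization p, by ring⟩) ho
  · intro hd
    have h4 : 1 ≤ (sf j).factorization p :=
      (hp.dvd_iff_one_le_factorization hs).1 hd
    have h5 : (sf j).factorization p = 1 := le_antisymm h3 h4
    rw [e, h5]
    exact ⟨(sx j).factorization p, rfl⟩

/-- the squarefree parts are distinct -/
theorem sf_inj {A s : ℕ} (hA : s ^ 2 ≤ 4 * A) {i j : ℕ} (hi : i ∈ Ioc A (A + s))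
    (hj : j ∈ Ioc A (A + s)) (hij : i < j) : sf i ≠ sf j := by
  intro h
  rw [mem_Ioc] at hi hj
  obtain ⟨h1, h1'⟩ := sf_spec i
  obtain ⟨h2, -⟩ := sf_spec j
  rw [← h] at h2
  set a := sf i
  set x := sx i
  set y := sx j
  have ha : 1 ≤ a := Nat.one_le_iff_ne_zero.2 h1'.ne_zero
  have hxy : x < y := by
    by_contra hc
    have : y ^ 2 ≤ x ^ 2 := Nat.pow_le_pow_left (not_lt.1 hc) 2
    have := Nat.mul_le_mul_right a this
    omega
  have h3 : (x + 1) ^ 2 ≤ y ^ 2 := Nat.pow_le_pow_left hxy 2
  have h4 : (x + 1) ^ 2 * a ≤ y ^ 2 * a := Nat.mul_le_mul_right a h3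
  have h5 : i + a * (2 * x + 1) ≤ j := by
    rw [← h1, ← h2]
    calc x ^ 2 * a + a * (2 * x + 1) = (x + 1) ^ 2 * a := by ring
      _ ≤ _ := h4
  have h6 : a * (2 * x + 1) < s := by omega
  have h7 : (a * (2 * x + 1)) ^ 2 < s ^ 2 := Nat.pow_lt_pow_left h6 (by norm_num)
  have h8 : 4 * (x ^ 2 * a) ≤ (a * (2 * x + 1)) ^ 2 := by
    have : a * 1 ≤ a * a := Nat.mul_le_mul_left a ha
    nlinarith [Nat.zero_le (x ^ 2), Nat.zero_le (a ^ 2 * x), Nat.mul_le_mul_left (x ^ 2) this]
  rw [h1] at h8
  omega

theorem fact_bound (s e : ℕ) (he : e ≤ s) (hs : 1 ≤ s) :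
    Real.log (s.factorial) ≤ Real.log ((s - e).factorial) + e * Real.log s := by
  have h1 : s.factorial ≤ (s - e).factorial * s ^ e := by
    have h2 := Nat.factorial_mul_ascFactorial (s - e) e
    have h3 := Nat.ascFactorial_le_pow_add (s - e) e
    rw [Nat.sub_add_cancel he] at h2 h3
    rw [← h2]
    exact Nat.mul_le_mul_left _ h3
  have h2 : (s.factorial : ℝ) ≤ ((s - e).factorial : ℝ) * (s : ℝ) ^ e := by exact_mod_cast h1
  have h3 : (0 : ℝ) < s.factorial := by exact_mod_cast Nat.factorial_pos s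
  have h4 : (0 : ℝ) < (s - e).factorial := by exact_mod_cast Nat.factorial_pos (s - e)
  have h5 : (0 : ℝ) < s := by exact_mod_cast hs
  have h6 := Real.log_le_log h3 h2
  rwa [Real.log_mul h4.ne' (by positivity), Real.log_pow] at h6

theorem t_ES1M (hU : S_ES1U) (hL : S_ES1L) : S_ES1 := by
  classical
  obtain ⟨s₀, hs₀⟩ := hU
  refine ⟨1 / 100, by norm_num, max s₀ (10 ^ 6), ?_⟩
  intro A s hs hA
  have hs1 : s₀ ≤ s := (le_max_left _ _).trans hs
  have hs2 : 10 ^ 6 ≤ s := (le_max_right _ _).trans hs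
  set S := Ioc A (A + s) with hS
  have hScard : S.card = s := by simp [hS]
  have hpos : ∀ j ∈ S, j ≠ 0 := fun j hj => by
    rw [hS, mem_Ioc] at hj; omega
  set E := S.filter (fun j => ∃ p : ℕ, p.Prime ∧ s < p ∧ Odd (j.factorization p)) with hE
  have hEx : ∀ j : ℕ, ∃ p : ℕ, j ∈ E → p.Prime ∧ s < p ∧ Odd (j.factorization p) := by
    intro j
    by_cases hj : j ∈ E
    · obtain ⟨p, hp⟩ := (mem_filter.1 hj).2
      exact ⟨p, fun _ => hp⟩
    · exact ⟨0, fun h => absurd h hj⟩
  choose q hq using hEx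
  have hdvd : ∀ j p : ℕ, Odd (j.factorization p) → p ∣ j := by
    intro j p h
    by_contra hd
    rw [Nat.factorization_eq_zero_of_not_dvd hd] at h
    simp at h
  have huniq : ∀ i ∈ S, ∀ j ∈ S, ∀ p : ℕ, s < p → p ∣ i → p ∣ j → i = j := by
    intro i hi j hj p hp h1 h2
    rw [hS, mem_Ioc] at hi hj
    rcases lt_trichotomy i j with h | h | h
    · have := Nat.le_of_dvd (by omega) (Nat.dvd_sub h2 h1)
      omega
    · exact h
    · have := Nat.le_of_dvd (by omega) (Nat.dvd_sub h1 h2)
      omega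
  have hinj : Set.InjOn q E := by
    intro i hi j hj h
    have hi' := hq i hi
    have hj' := hq j hj
    rw [← h] at hj'
    exact huniq i (mem_filter.1 hi).1 j (mem_filter.1 hj).1 (q i) hi'.2.1
      (hdvd i _ hi'.2.2) (hdvd j _ hj'.2.2)
  refine ⟨E.image q, ?_, ?_⟩
  · intro p hp
    obtain ⟨j, hj, rfl⟩ := mem_image.1 hp
    obtain ⟨h1, h2, h3⟩ := hq j hj
    have hjS := (mem_filter.1 hj).1
    refine ⟨h1, ?_⟩
    unfold blk
    rw [Nat.factorization_prod (fun i hi => hpos i hi)]
    rw [Finsupp.finsetSum_apply, Finset.sum_eq_single_of_mem j hjS]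
    · exact h3
    · intro i hi hij
      apply Nat.factorization_eq_zero_of_not_dvd
      intro hd
      exact hij (huniq i hi j hjS (q j) h2 hd (hdvd j _ h3))
  · rw [card_image_of_injOn hinj]
    set e := E.card with he
    have hes : e ≤ s := by
      rw [← hScard]; exact card_le_card (filter_subset _ _)
    set F := S.filter (fun j => ¬ ∃ p : ℕ, p.Prime ∧ s < p ∧ Odd (j.factorization p)) with hF
    have hFcard : F.card = s - e := by
      have h : E.card + F.card = S.card := by
        simp only [hE, hF]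
        convert Finset.card_filter_add_card_filter_not (s := S)
          (fun j => ∃ p : ℕ, p.Prime ∧ s < p ∧ Odd (j.factorization p))
      rw [hScard, ← he] at h
      omega
    have hinjF : Set.InjOn sf F := by
      intro i hi j hj h
      have hi' := (mem_filter.1 hi).1
      have hj' := (mem_filter.1 hj).1
      rcases lt_trichotomy i j with h1 | h1 | h1
      · exact absurd h (sf_inj hA hi' hj' h1)
      · exact h1
      · exact absurd h.symm (sf_inj hA hj' hi' h1)
    have hT := hL (F.image sf) (by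
      intro a ha
      obtain ⟨j, -, rfl⟩ := mem_image.1 ha
      have h2 := (sf_spec j).2
      refine ⟨Nat.one_le_iff_ne_zero.2 h2.ne_zero, ?_⟩
      intro h4
      have := h2 2 (by simpa using h4)
      rw [Nat.isUnit_iff] at this
      omega)
    rw [card_image_of_injOn hinjF, hFcard, sum_image hinjF] at hT
    have hlog : ∀ j ∈ F, Real.log (sf j) =
        ∑ p ∈ (Icc 1 s).filter Nat.Prime, if Odd (j.factorization p) then Real.log p else 0 := by
      intro j hj
      obtain ⟨hjS, hjn⟩ := mem_filter.1 hj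
      have hsq := (sf_spec j).2
      rw [← Finset.sum_filter]
      have e1 : ((Icc 1 s).filter Nat.Prime).filter (fun p => Odd (j.factorization p)) =
          (sf j).primeFactors := by
        ext p
        rw [mem_filter, mem_filter, mem_Icc, Nat.mem_primeFactors]
        constructor
        · rintro ⟨⟨_, hp⟩, ho⟩
          exact ⟨hp, (odd_iff (hpos j hjS) p hp).1 ho, hsq.ne_zero⟩
        · rintro ⟨hp, hd, _⟩
          have ho := (odd_iff (hpos j hjS) p hp).2 hd
          refine ⟨⟨⟨hp.one_lt.le, ?_⟩, hp⟩, ho⟩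
          by_contra hc
          exact hjn ⟨p, hp, not_le.1 hc, ho⟩
      rw [e1]
      conv_lhs => rw [← Nat.prod_primeFactors_of_squarefree hsq]
      rw [Nat.cast_prod, Real.log_prod]
      intro p hp
      have := (Nat.prime_of_mem_primeFactors hp).pos
      positivity
    have hsum : ∑ j ∈ F, Real.log (sf j) ≤
        ∑ p ∈ (Icc 1 s).filter Nat.Prime, (oddp A s p : ℝ) * Real.log p := by
      rw [Finset.sum_congr rfl hlog, Finset.sum_comm]
      refine Finset.sum_le_sum (fun p hp => ?_)
      have hp1 : (1 : ℝ) ≤ p := by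
        exact_mod_cast (mem_Icc.1 (mem_filter.1 hp).1).1
      have hlp : 0 ≤ Real.log p := Real.log_nonneg hp1
      rw [← Finset.sum_filter, Finset.sum_const, nsmul_eq_mul]
      refine mul_le_mul_of_nonneg_right ?_ hlp
      unfold oddp
      have : (F.filter (fun j => Odd (j.factorization p))).card ≤
          ((Ioc A (A + s)).filter (fun j => Odd (j.factorization p))).card :=
        card_le_card (filter_subset_filter _ (filter_subset _ _))
      exact_mod_cast this
    have hUs := hs₀ A s hs1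
    have hfb := fact_bound s e hes (by omega)
    have hsR : (10 ^ 6 : ℝ) ≤ s := by exact_mod_cast hs2
    have hK : (((s - e : ℕ) : ℝ)) = (s : ℝ) - e := by push_cast [hes]; ring
    have hlogK : Real.log (((s - e : ℕ) : ℝ) + 1) ≤ Real.log ((s : ℝ) + 1) := by
      apply Real.log_le_log
      · positivity
      · have : ((s - e : ℕ) : ℝ) ≤ s := by exact_mod_cast Nat.sub_le s e
        linarith
    have hlogs : Real.log ((s : ℝ) + 1) ≤ 2 * (((s : ℝ) + 1) / 1000) := by
      have h1 : (0 : ℝ) < (s : ℝ) + 1 := by positivity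
      have h2 : Real.log ((s : ℝ) + 1) = 2 * Real.log (Real.sqrt ((s : ℝ) + 1)) := by
        rw [Real.log_sqrt h1.le]; ring
      have h3 : Real.log (Real.sqrt ((s : ℝ) + 1)) ≤ Real.sqrt ((s : ℝ) + 1) := by
        have := Real.log_le_sub_one_of_pos (Real.sqrt_pos.2 h1)
        linarith
      have h4 : (1000 : ℝ) ≤ Real.sqrt ((s : ℝ) + 1) := by
        apply Real.le_sqrt_of_sq_le
        nlinarith
      have h5 := Real.mul_self_sqrt h1.le
      have h6 : Real.sqrt ((s : ℝ) + 1) ≤ ((s : ℝ) + 1) / 1000 := by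
        rw [le_div_iff₀ (by norm_num)]
        nlinarith
      linarith
    have hls : 1 ≤ Real.log s := by
      rw [Real.le_log_iff_exp_le (by positivity)]
      have := Real.exp_one_lt_d9
      linarith
    have he0 : (0 : ℝ) ≤ e := by positivity
    rw [hK] at hT hlogK
    have hmain : 7 / 100 * (s : ℝ) - 10 - 2 * Real.log ((s : ℝ) + 1) ≤
        e * (Real.log s + 28 / 100) := by
      nlinarith
    rw [div_le_iff₀ (by linarith)]
    nlinarith

end Pool.Agent.Y585.SF
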